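import Pool.Agent.T9h69.CG.Row
import Pool.Agent.T9h69.CF.Num

set_option autoImplicit false
set_option linter.unusedSectionVars false

/-! Frames from a sequence of homeomorphisms which preserve the stable and the unstable sets. -/

open Filter Topology Set Metric unitInterval

namespace Pool.Agent.T9h69.CG

open Pool.Agent.H721R2
open Pool.Agent.H789R2.AN Pool.Agent.H789R2.GP Pool.Agent.N234.CP Pool.Agent.Y330.J
open Pool.Agent.T9h69.CF

/-- The choice of the time. -/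
theorem choose_k {s S u U : ℝ} (hS : S < s) (hU : U < u) {C₁ C₃ D₁ D₃ : ℝ} (h1 : 1 ≤ C₁)
    (h3 : 1 ≤ C₃) (k1 : 1 ≤ D₁) (k3 : 1 ≤ D₃) :
    ∃ A K : ℕ, ∀ N : ℕ, ∃ k : ℕ, k ≤ A + K * Nat.log 2 (N + 1) ∧
      C₁ * ((N * ⌊C₃ * Real.exp (S * k)⌋₊ : ℕ) : ℝ) ≤ Real.exp (s * k) ∧
      D₁ * ((N * ⌊D₃ * Real.exp (U * k)⌋₊ : ℕ) : ℝ) ≤ Real.exp (u * k) := by
  set τ := min (s - S) (u - U) with hτ
  have hτ0 : 0 < τ := lt_min (by linarith) (by linarith)
  set X₁ := C₁ * C₃ with hX₁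
  set X₂ := D₁ * D₃ with hX₂
  have hX₁1 : 1 ≤ X₁ := by nlinarith
  have hX₂1 : 1 ≤ X₂ := by nlinarith
  have l1 : 0 ≤ Real.log X₁ := Real.log_nonneg hX₁1
  have l2 : 0 ≤ Real.log X₂ := Real.log_nonneg hX₂1
  refine ⟨⌈(Real.log X₁ + Real.log X₂ + 1) / τ⌉₊ + 1, ⌈1 / τ⌉₊, fun N => ?_⟩
  have hN1 : (0 : ℝ) < (N : ℝ) + 1 := by positivity
  have hlog0 : 0 ≤ Real.log ((N : ℝ) + 1) := Real.log_nonneg (by
    have : (0 : ℝ) ≤ N := Nat.cast_nonneg _
    linarith)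
  set k := ⌈(Real.log X₁ + Real.log X₂ + Real.log (N + 1)) / τ⌉₊ with hk
  have hk1 : Real.log X₁ + Real.log X₂ + Real.log (N + 1) ≤ τ * k := by
    have := Nat.le_ceil ((Real.log X₁ + Real.log X₂ + Real.log (N + 1)) / τ)
    rw [div_le_iff₀ hτ0] at this
    linarith
  have gen : ∀ (C C' υ κ : ℝ), 1 ≤ C → 1 ≤ C' → τ ≤ υ - κ →
      Real.log (C * C') ≤ Real.log X₁ + Real.log X₂ →
      C * ((N * ⌊C' * Real.exp (κ * k)⌋₊ : ℕ) : ℝ) ≤ Real.exp (υ * k) := by
    intro C C' υ κ hC hC' hυ hl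
    have e1 : ((⌊C' * Real.exp (κ * k)⌋₊ : ℕ) : ℝ) ≤ C' * Real.exp (κ * k) :=
      Nat.floor_le (by positivity)
    have e2 : (0 : ℝ) ≤ N := Nat.cast_nonneg _
    calc C * ((N * ⌊C' * Real.exp (κ * k)⌋₊ : ℕ) : ℝ)
        = C * (N * (⌊C' * Real.exp (κ * k)⌋₊ : ℕ)) := by push_cast; ring
      _ ≤ C * ((N + 1) * (C' * Real.exp (κ * k))) := by
          apply mul_le_mul_of_nonneg_left _ (by linarith)
          apply mul_le_mul (by linarith) e1 (Nat.cast_nonneg _) (by linarith)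
      _ = Real.exp (Real.log (C * C') + Real.log (N + 1) + κ * k) := by
          rw [Real.exp_add, Real.exp_add, Real.exp_log (by positivity), Real.exp_log hN1]
          ring
      _ ≤ _ := Real.exp_le_exp.mpr (by
          have e3 : τ * k ≤ (υ - κ) * k := mul_le_mul_of_nonneg_right hυ (Nat.cast_nonneg _)
          linarith)
  refine ⟨k, ?_, gen C₁ C₃ s S h1 h3 (min_le_left _ _) (by linarith),
    gen D₁ D₃ u U k1 k3 (min_le_right _ _) (by linarith)⟩
  have e1 := log_succ_le N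
  have e2 : (Real.log X₁ + Real.log X₂ + Real.log (N + 1)) / τ ≤
      (Real.log X₁ + Real.log X₂ + 1) / τ + 1 / τ * (Nat.log 2 (N + 1) : ℝ) := by
    rw [← sub_nonneg]
    have : (Real.log X₁ + Real.log X₂ + 1) / τ + 1 / τ * (Nat.log 2 (N + 1) : ℝ) -
        (Real.log X₁ + Real.log X₂ + Real.log (N + 1)) / τ =
        (1 + (Nat.log 2 (N + 1) : ℝ) - Real.log (N + 1)) / τ := by
      field_simp
      ring
    rw [this]
    exact div_nonneg (by linarith) hτ0.le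
  have hk2 : (k : ℝ) < (Real.log X₁ + Real.log X₂ + Real.log (N + 1)) / τ + 1 :=
    Nat.ceil_lt_add_one (by positivity)
  have c1 := Nat.le_ceil ((Real.log X₁ + Real.log X₂ + 1) / τ)
  have c2 := mul_le_mul_of_nonneg_right (Nat.le_ceil (1 / τ))
    (Nat.cast_nonneg (α := ℝ) (Nat.log 2 (N + 1)))
  have e3 : (k : ℝ) ≤ ((⌈(Real.log X₁ + Real.log X₂ + 1) / τ⌉₊ + 1 +
      ⌈1 / τ⌉₊ * Nat.log 2 (N + 1) : ℕ) : ℝ) := by
    push_cast
    linarith
  exact_mod_cast e3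

variable {X : Type*} [MetricSpace X] [CompactSpace X]

/-- the homeomorphisms `Φ k` expand the local stable sets of `F` at the rate `S` at most -/
def UpSeq (F : X ≃ₜ X) (Φ : ℕ → X → X) (δ S : ℝ) : Prop :=
  ∀ ρ > 0, ∃ C : ℝ, 1 ≤ C ∧ ∀ (k : ℕ) (x y : X), SR F δ x y →
    ∃ M ≤ ⌊C * Real.exp (S * k)⌋₊, Steps F ρ M (Φ k x) (Φ k y)

theorem cent_frames {F : X ≃ₜ X} {c : ℝ} (hF : LP F c) (hX : ULC X) {Φ : ℕ → X ≃ₜ X}
    (hΦ : ∀ k, Fol F (Φ k)) {δ₀ : ℝ} (hδ₀ : 0 < δ₀) (hδc : δ₀ ≤ c) {s S u U : ℝ} (hs : 0 < s)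
    (hS : S < s) (hu : 0 < u) (hU : U < u) (r1 : LoRate F δ₀ s) (r2 : LoRate F.symm δ₀ u)
    (r3 : UpSeq F (fun k => Φ k) δ₀ S)
    (r4 : UpSeq F.symm (fun k x => F^[k] (Φ k x)) δ₀ U) :
    ∃ (br : X → X → X) (δb δ₁ ρ η δm : ℝ) (A K : ℕ), 0 < ρ ∧ 0 < δm ∧
      (∀ ψ : X ≃ₜ X, Fol F ψ → Sq F δ₁ ψ) ∧
      ∀ N : ℕ, ∃ n ≤ A + K * Nat.log 2 (N + 1), HFrF F c br δb δ₁ ρ η δm N n := by
  have hc := hF.c_pos
  obtain ⟨br, δb, hbr⟩ := exists_BrP hF
  obtain ⟨δq, hδq, hsq⟩ := squareF hF hX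
  obtain ⟨δt, hδt, hst⟩ := steps_unif hF hX
  set δm := c / 3 with hδm
  have m0 : 0 < δm := by positivity
  set δ₁ := min (min δ₀ δm) (min δt δq) with hδ₁
  have d0 : 0 < δ₁ := by positivity
  have d1 : δ₁ ≤ δ₀ := (min_le_left _ _).trans (min_le_left _ _)
  have d2 : δ₁ ≤ δm := (min_le_left _ _).trans (min_le_right _ _)
  have d3 : δ₁ ≤ δt := (min_le_right _ _).trans (min_le_left _ _)
  have d4 : δ₁ ≤ δq := (min_le_right _ _).trans (min_le_right _ _)
  obtain ⟨η₁, hη₁, hb2⟩ := hbr.b2 δ₁ d0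
  set η := min η₁ δb with hη
  have n0 : 0 < η := lt_min hη₁ hbr.pos
  obtain ⟨ηg, hηg, hgap⟩ := qs_SR_of_dist hF δ₁ d0
  set ρ := min δ₁ (min (η / 4) (ηg / 4)) with hρ
  have p0 : 0 < ρ := by positivity
  have p1 : ρ ≤ δ₁ := min_le_left _ _
  have p2 : ρ ≤ η / 4 := (min_le_right _ _).trans (min_le_left _ _)
  have p3 : ρ ≤ ηg / 4 := (min_le_right _ _).trans (min_le_right _ _)
  obtain ⟨C₁, hC₁, TA⟩ := r1.fine hF hs hδc p0
  obtain ⟨D₁, hD₁, TB⟩ := r2.fine hF.symm hu hδc p0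
  obtain ⟨C₃, hC₃, TC⟩ := r3 ρ p0
  obtain ⟨D₃, hD₃, TD⟩ := r4 ρ p0
  obtain ⟨A, K, hAK⟩ := choose_k hS hU hC₁ hC₃ hD₁ hD₃
  refine ⟨br, δb, δ₁, ρ, η, δm, A, K, p0, m0, fun ψ hψ => ?_, fun N => ?_⟩
  · intro a b d e α β β' α' hα hβ hβ' hα' s1 s2 s3 s4
    exact hsq ψ hψ hα hβ hβ' hα' (s1.mono d4) (s2.mono d4) (s3.mono d4) (s4.mono d4)
  obtain ⟨k, hk, hB, hB'⟩ := hAK N
  refine ⟨k, hk, Φ k, (Φ k).trans (iterHomeo F k), fun i => (Φ k).trans (iterHomeo F i),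
    ⌊D₃ * Real.exp (U * k)⌋₊, ⌊C₃ * Real.exp (S * k)⌋₊, ?_, ?_, ?_, ?_, ?_, ?_, ?_, ?_⟩
  · have hψ : ∀ z, ((Φ k).trans (iterHomeo F k)) z = F^[k] (Φ k z) := fun z => rfl
    have hθ : ∀ i z, ((Φ k).trans (iterHomeo F i)) z = F^[i] (Φ k z) := fun i z => rfl
    exact {
      hb := hbr
      hδ₁ := by linarith
      hρ0 := p0
      hρδ := p1
      hρη := by linarith
      hη := min_le_right _ _
      b2 := fun x y hxy => hb2 x y (hxy.trans_le (min_le_left _ _))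
      gap := fun x y hxy hd => hgap x y hxy (by linarith)
      CS := by
        intro i hi x y hst
        rw [hψ, hψ]
        refine TA i k _ _ (le_trans ?_ hB) (hst.mono d1)
        exact mul_le_mul_of_nonneg_left (by exact_mod_cast hi) (by linarith)
      CU := by
        intro j hj x y hst
        have h := TB j k _ _ (le_trans (mul_le_mul_of_nonneg_left (by exact_mod_cast hj)
          (by linarith)) hB') (hst.mono d1)
        rw [hψ, hψ, iterL, iterL] at h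
        exact h
      hm := m0
      mS := by
        intro x y hxy i hi
        rw [hθ, hθ]
        exact (hxy i).trans d2
      mU := by
        intro x y hxy i hi
        rw [hθ, hθ]
        have a2 := hxy (k - i)
        have e : ∀ z : X, F.symm^[k - i] (((Φ k).trans (iterHomeo F k)) z) = F^[i] (Φ k z) := by
          intro z
          have : ((Φ k).trans (iterHomeo F k)) z = F^[k - i] (F^[i] (Φ k z)) := by
            rw [← Function.iterate_add_apply, Nat.sub_add_cancel hi]; rfl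
          rw [this, iterL]
        rw [e, e] at a2
        exact a2.trans d2
      down := by
        intro x y htop hmid t
        rcases le_or_gt t k with ht | ht
        · have := hmid t ht
          rw [hθ, hθ] at this
          exact this.trans (by linarith)
        · have := htop (t - k)
          have e : ∀ z : X, F^[t - k] (((Φ k).trans (iterHomeo F k)) z) = F^[t] (Φ k z) := by
            intro z
            rw [hψ, ← Function.iterate_add_apply, Nat.sub_add_cancel ht.le]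
          rw [e, e] at this
          exact this.trans (by linarith) }
  · intro x y hxy
    exact TC k x y (hxy.mono (p1.trans d1))
  · intro x y hxy
    exact TD k x y (hxy.mono (p1.trans d1))
  · exact (hΦ k).flip.loc hF.symm hX
  · exact (hΦ k).symm'.flip.loc hF.symm hX
  · exact (hΦ k).ua hF hX hst d3
  · exact (hΦ k).trans' (Fol.iter F k)
  · intro x y hxy
    exact ((hΦ k).s x y).1 hxy

end Pool.Agent.T9h69.CG
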