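import Pool.Agent.T9h69.CF.Eq
import Pool.Agent.T9h69.CF.Lift2
import Pool.Agent.H721R2.Build

set_option autoImplicit false
set_option linter.unusedSectionVars false

/-! Homeomorphisms which preserve the stable sets and the unstable sets. -/

open Filter Topology Set Metric unitInterval

namespace Pool.Agent.T9h69.CG

open Pool.Agent.H721R2
open Pool.Agent.H789R2.AN Pool.Agent.H789R2.GP Pool.Agent.N234.CP Pool.Agent.Y330.J
open Pool.Agent.T9h69.CF

variable {X : Type*} [MetricSpace X] [CompactSpace X]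

/-- `ψ` preserves the partitions into stable sets and into unstable sets. -/
structure Fol (g ψ : X ≃ₜ X) : Prop where
  s : ∀ x y, WS g (ψ x) (ψ y) ↔ WS g x y
  u : ∀ x y, WS g.symm (ψ x) (ψ y) ↔ WS g.symm x y

theorem Fol.symm' {g ψ : X ≃ₜ X} (h : Fol g ψ) : Fol g ψ.symm where
  s := fun x y => by
    rw [← h.s, ψ.apply_symm_apply, ψ.apply_symm_apply]
  u := fun x y => by
    rw [← h.u, ψ.apply_symm_apply, ψ.apply_symm_apply]

theorem Fol.flip {g ψ : X ≃ₜ X} (h : Fol g ψ) : Fol g.symm ψ where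
  s := h.u
  u := h.s

theorem Fol.iter (g : X ≃ₜ X) (m : ℕ) : Fol g (iterHomeo g m) where
  s := fun _ _ => WS.iter (g := g) m
  u := fun x y => by
    rw [← WS.iter (g := g.symm) m]
    have e : ∀ z : X, g.symm^[m] ((iterHomeo g m) z) = z := fun z => iterL g m z
    rw [e, e]

theorem Fol.trans' {g φ ψ : X ≃ₜ X} (h : Fol g φ) (h' : Fol g ψ) : Fol g (φ.trans ψ) where
  s := fun _ _ => (h'.s _ _).trans (h.s _ _)
  u := fun _ _ => (h'.u _ _).trans (h.u _ _)

theorem loc_of_ws {g ψ : X ≃ₜ X} {c : ℝ} (hg : LP g c) (hX : ULC X)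
    (hWS : ∀ x y, WS g x y → WS g (ψ x) (ψ y)) : Loc g ψ := by
  intro ε hε
  obtain ⟨δ, hδ, h1⟩ := sr_of_path hg hε
  obtain ⟨δ', hδ', hu⟩ := Metric.uniformContinuous_iff.1
    (CompactSpace.uniformContinuous_of_continuous ψ.continuous) δ hδ
  obtain ⟨η, hη, h2⟩ := leaf_path hg hX (δ' / 2) (half_pos hδ')
  refine ⟨η, hη, fun x y hxy => ?_⟩
  obtain ⟨υ, a1, a2, a3⟩ := h2 ⟨x⟩ ⟨y⟩ ((SM.dist_le _ _ hη.le).2 hxy)
  have e0 : (υ 0).val = x := by rw [a1]
  have e1 : (υ 1).val = y := by rw [a2]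
  have h3 := h1 ⟨fun t => ψ (υ t).val, ψ.continuous.comp (SM.val_continuous.comp υ.continuous)⟩
    (fun t => hWS _ _ (WS_of_path hg υ 0 t)) (fun t => by
      have := ((SM.dist_le _ _ (half_pos hδ').le).1 (a3 t)) 0
      show dist (ψ (υ 0).val) (ψ (υ t).val) < δ
      rw [e0]
      exact hu (lt_of_le_of_lt this (half_lt_self hδ')))
  simp only [ContinuousMap.coe_mk] at h3
  rwa [e0, e1] at h3

theorem Fol.loc {g ψ : X ≃ₜ X} {c : ℝ} (h : Fol g ψ) (hg : LP g c) (hX : ULC X) : Loc g ψ :=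
  loc_of_ws hg hX fun x y hxy => (h.s x y).2 hxy

/-- the local stable sets are uniformly chained -/
theorem steps_unif {g : X ≃ₜ X} {c : ℝ} (hg : LP g c) (hX : ULC X) : ∃ δ > 0, ∀ η > 0,
    ∃ M : ℕ, ∀ x y, SR g δ x y → ∃ N ≤ M, Steps g η N x y := by
  have hc := hg.c_pos
  obtain ⟨br, δb, hb⟩ := exists_BrP hg
  have hδb := hb.pos
  set r := min (c / 3) (δb / 2) with hr
  have hr0 : 0 < r := by positivity
  have hr1 : r ≤ c / 3 := min_le_left _ _
  have hr2 : r ≤ δb / 2 := min_le_right _ _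
  obtain ⟨δ', hδ', h1⟩ := leaf_path hg hX r hr0
  refine ⟨min δ' (c / 3), by positivity, fun η hη => ?_⟩
  set δ := min δ' (c / 3) with hδ
  have hd1 : δ ≤ δ' := min_le_left _ _
  have hd2 : δ ≤ c / 3 := min_le_right _ _
  obtain ⟨ηg, hηg, hgap⟩ := qs_SR_of_dist hg η hη
  -- uniformly continuous bracket
  set ε := ηg / 5 with hε
  have hε0 : 0 < ε := by positivity
  obtain ⟨η₄, hη₄, b4⟩ := hb.b4 ε hε0
  have hK : IsClosed {p : X × X | SR g δ p.1 p.2} := by
    have : {p : X × X | SR g δ p.1 p.2} = ⋂ k : ℕ, {p | dist (g^[k] p.1) (g^[k] p.2) ≤ δ} := by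
      ext p
      simp [SR]
    rw [this]
    refine isClosed_iInter fun k => ?_
    have hk : Continuous (g^[k]) := g.continuous.iterate k
    exact isClosed_le ((hk.comp continuous_fst).dist (hk.comp continuous_snd)) continuous_const
  have key : ∀ p ∈ {p : X × X | SR g δ p.1 p.2}, ∃ t ∈ 𝓝[{p : X × X | SR g δ p.1 p.2}] p,
      ∃ N : ℕ, ∀ q ∈ t, SR g δ q.1 q.2 → Steps g η N q.1 q.2 := by
    rintro ⟨x₀, y₀⟩ hp
    have hp' : SR g δ x₀ y₀ := hp
    obtain ⟨υ, u0, u1, u2⟩ := h1 ⟨x₀⟩ ⟨y₀⟩ ((SM.dist_le _ _ hδ'.le).2 (hp'.mono hd1))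
    have e0 : (υ 0).val = x₀ := by rw [u0]
    have e1 : (υ 1).val = y₀ := by rw [u1]
    have hu : UniformContinuous υ := CompactSpace.uniformContinuous_of_continuous υ.continuous
    obtain ⟨τ, hτ, h2⟩ := Metric.uniformContinuous_iff.1 hu ε hε0
    obtain ⟨N, hN⟩ := exists_nat_gt (1 / τ)
    have hN0 : (0 : ℝ) < N := lt_trans (by positivity) hN
    set z : ℕ → X := fun i => (υ (Set.projIcc 0 1 zero_le_one ((i : ℝ) / N))).val with hz
    have z0 : z 0 = x₀ := by
      rw [hz, ← e0]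
      simp only [Nat.cast_zero, zero_div]
      congr 2
      exact Set.projIcc_left _
    have zN : z N = y₀ := by
      rw [hz, ← e1]
      simp only
      rw [div_self hN0.ne']
      congr 2
      exact Set.projIcc_right _
    have hzz : ∀ i, dist (z i) (z (i + 1)) ≤ ε := by
      intro i
      refine ((SM.dist_le _ _ hε0.le).1 (h2 ?_).le) 0
      have h3 := (LipschitzWith.projIcc (zero_le_one (α := ℝ))).dist_le_mul ((i : ℝ) / N)
        (((i + 1 : ℕ) : ℝ) / N)
      refine lt_of_le_of_lt h3 ?_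
      rw [Real.dist_eq, abs_sub_comm]
      have h4 : ((i + 1 : ℕ) : ℝ) / N - (i : ℝ) / N = 1 / N := by push_cast; ring
      rw [h4, abs_of_nonneg (by positivity)]
      have h5 : 1 / (N : ℝ) < τ := by
        rw [div_lt_iff₀ hN0]
        rw [div_lt_iff₀ hτ] at hN
        linarith
      simp only [NNReal.coe_one, one_mul]
      exact h5
    have hzr : ∀ i, SR g r x₀ (z i) := fun i =>
      (SM.dist_le _ _ hr0.le).1 (u2 _)
    have hbr0 : ∀ i, br x₀ (z i) = z i := fun i => by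
      refine (hb.b3 _ _ _ ?_ ((hzr i).mono hr1) (qs_SR_refl _ (by linarith) _)).symm
      exact lt_of_le_of_lt (hzr i 0) (by linarith)
    obtain ⟨η₅, hη₅⟩ : ∃ η₅ : ℝ, η₅ = min (min η₄ ε) (δb / 2) := ⟨_, rfl⟩
    have p5 : 0 < η₅ := by rw [hη₅]; positivity
    refine ⟨_, mem_nhdsWithin_of_mem_nhds (Metric.ball_mem_nhds (x₀, y₀) p5), N + 2, ?_⟩
    rintro ⟨x, y⟩ hq hxy
    rw [Metric.mem_ball, Prod.dist_eq, max_lt_iff] at hq
    have hx : dist x x₀ < η₅ := hq.1
    have hy : dist y y₀ < η₅ := hq.2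
    have k1 : η₅ ≤ η₄ := by rw [hη₅]; exact (min_le_left _ _).trans (min_le_left _ _)
    have k2 : η₅ ≤ ε := by rw [hη₅]; exact (min_le_left _ _).trans (min_le_right _ _)
    have k3 : η₅ ≤ δb / 2 := by rw [hη₅]; exact min_le_right _ _
    have hxz : ∀ i, dist x (z i) < δb := fun i => by
      have a1 := dist_triangle x x₀ (z i)
      have a2 : dist x₀ (z i) ≤ r := hzr i 0
      linarith
    have hx0z : ∀ i, dist x₀ (z i) < δb := fun i => by
      have a2 : dist x₀ (z i) ≤ r := hzr i 0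
      linarith
    have hclose : ∀ i, dist (br x (z i)) (z i) < ε := fun i => by
      have := b4 x x₀ (z i) (z i) (hxz i) (hx0z i) (hx.trans_le k1) (by rw [dist_self]; exact hη₄)
      rwa [hbr0] at this
    have hS : ∀ i, SR g (c / 3) x (br x (z i)) := fun i => (hb.b1 _ _ (hxz i)).1
    -- the chain
    have t1 : SR g η x (br x (z 0)) := by
      refine hgap _ _ ((hS 0).mono (by linarith)) ?_
      have a1 := dist_triangle x (z 0) (br x (z 0))
      have a2 := hclose 0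
      rw [dist_comm] at a2
      rw [z0] at a1 a2 ⊢
      linarith
    have t2 : ∀ i, SR g η (br x (z i)) (br x (z (i + 1))) := fun i => by
      refine hgap _ _ ((qs_SR_add (hS i).symm' (hS (i + 1))).mono (by linarith)) ?_
      have a1 := dist_triangle4 (br x (z i)) (z i) (z (i + 1)) (br x (z (i + 1)))
      have a2 := hclose i
      have a3 := hclose (i + 1)
      rw [dist_comm] at a3
      have a4 := hzz i
      linarith
    have t3 : SR g η (br x (z N)) y := by
      refine hgap _ _ ((qs_SR_add (hS N).symm' hxy).mono (by linarith)) ?_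
      have a1 := dist_triangle (br x (z N)) (z N) y
      have a2 := hclose N
      rw [zN] at a1 a2 ⊢
      rw [dist_comm y₀ y] at a1
      linarith
    refine ⟨fun i => if i = 0 then x else if i ≤ N + 1 then br x (z (i - 1)) else y, by simp,
      by simp, fun i hi => ?_⟩
    beta_reduce
    rcases Nat.eq_zero_or_pos i with rfl | hi0
    · rw [if_pos rfl, if_neg (by omega), if_pos (by omega)]
      exact t1
    · rw [if_neg (by omega), if_neg (by omega : ¬ i + 1 = 0), if_pos (by omega : i ≤ N + 1)]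
      rcases Nat.lt_or_ge i (N + 1) with h8 | h8
      · rw [if_pos (by omega)]
        have := t2 (i - 1)
        rwa [Nat.sub_add_cancel hi0] at this
      · obtain rfl : i = N + 1 := by omega
        rw [if_neg (by omega)]
        exact t3
  have hfin : ∃ M : ℕ, ∀ q ∈ {p : X × X | SR g δ p.1 p.2}, ∃ N ≤ M, Steps g η N q.1 q.2 := by
    refine hK.isCompact.induction_on
      (p := fun s => ∃ M : ℕ, ∀ q ∈ s, SR g δ q.1 q.2 → ∃ N ≤ M, Steps g η N q.1 q.2)
      ⟨0, fun q hq => absurd hq (Set.notMem_empty q)⟩ ?_ ?_ ?_ |>.imp fun M hM q hq => hM q hq hq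
    · rintro s t hst ⟨M, hM⟩
      exact ⟨M, fun q hq => hM q (hst hq)⟩
    · rintro s t ⟨M, hM⟩ ⟨M', hM'⟩
      refine ⟨max M M', fun q hq h => ?_⟩
      rcases hq with hq | hq
      · obtain ⟨N, hN, h2⟩ := hM q hq h
        exact ⟨N, hN.trans (le_max_left _ _), h2⟩
      · obtain ⟨N, hN, h2⟩ := hM' q hq h
        exact ⟨N, hN.trans (le_max_right _ _), h2⟩
    · intro p hp
      obtain ⟨t, ht, N, hN⟩ := key p hp
      exact ⟨t, ht, N, fun q hq h => ⟨N, le_rfl, hN q hq h⟩⟩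
  obtain ⟨M, hM⟩ := hfin
  exact ⟨M, fun x y hxy => hM (x, y) hxy⟩

/-- uniform asymptotics -/
theorem Fol.ua {g φ : X ≃ₜ X} {c δ δ₁ : ℝ} (h : Fol g φ) (hg : LP g c) (hX : ULC X)
    (hδ : ∀ η > 0, ∃ M : ℕ, ∀ x y, SR g δ x y → ∃ N ≤ M, Steps g η N x y) (hδ₁ : δ₁ ≤ δ) :
    UA g φ δ₁ := by
  intro ε hε
  have hc := hg.c_pos
  obtain ⟨η, hη, h1⟩ := h.symm'.loc hg hX c hc
  obtain ⟨M, hM⟩ := hδ η hη
  have hε' : 0 < ε / ((M : ℝ) + 1) := by positivity
  obtain ⟨K, hK⟩ := qs_exists_pow hc hε'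
  refine ⟨K, fun k hk x y hxy => ?_⟩
  obtain ⟨N, hN, z, z0, zN, hz⟩ := hM _ _ (hxy.mono hδ₁)
  have key : ∀ i ≤ N, dist (g^[k] x) (g^[k] (φ.symm (z i))) ≤ i * (ε / (M + 1)) := by
    intro i
    induction i with
    | zero =>
      intro _
      rw [z0, φ.symm_apply_apply, dist_self]
      simp
    | succ i ih =>
      intro hi
      have a1 := ih (by omega)
      have a2 := hg.cS _ _ (h1 _ _ (hz i (by omega))) k
      have a3 := (hK k hk).le
      have a4 := dist_triangle (g^[k] x) (g^[k] (φ.symm (z i))) (g^[k] (φ.symm (z (i + 1))))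
      have a5 : ((i + 1 : ℕ) : ℝ) * (ε / (M + 1)) = i * (ε / (M + 1)) + ε / (M + 1) := by
        push_cast; ring
      rw [a5]
      linarith
  have h2 := key N le_rfl
  rw [zN, φ.symm_apply_apply] at h2
  refine h2.trans ?_
  have h3 : (N : ℝ) ≤ M + 1 := by
    have : (N : ℝ) ≤ M := by exact_mod_cast hN
    linarith
  calc (N : ℝ) * (ε / (M + 1)) ≤ (M + 1) * (ε / (M + 1)) :=
        mul_le_mul_of_nonneg_right h3 (by positivity)
    _ = ε := by field_simp

end Pool.Agent.T9h69.CG
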