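import Pool.Agent.T9h69.CG.Cent
import Pool.Agent.T9h69.CF.Main

set_option autoImplicit false
set_option linter.unusedSectionVars false

/-! Anosov diffeomorphisms with a sequence of homeomorphisms which preserve the stable and the
unstable sets: final assembly. -/

open Filter Topology Set Metric
open scoped Manifold ContDiff Pointwise

namespace Pool.Agent.T9h69.CG

open Pool.Agent.H721R2 Pool.Agent.H789R2.AN Pool.Agent.H789R2.GP Pool.Agent.Y330.J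
open Pool.Agent.TH289.K (GPS)
open Pool.Agent.TH289 (Asym)
open Pool.Agent.N234.CP

universe u v w

/-- The maps `T k` expand the stable sets of `f` at the exponential rate `S` at most, in the large:
for some neighbourhood `𝒰₀` of the diagonal and every neighbourhood `𝒰` of the diagonal there is a
constant `C` such that `T k x` and `T k y` are joined by at most `C exp (S k)` stable `𝒰`-steps, if
`x` and `y` are stably `𝒰₀`-close. -/
def ExpandsBy {M : Type*} [TopologicalSpace M] (f : M → M) (T : ℕ → M → M) (S : ℝ) : Prop :=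
  ∃ 𝒰₀ ∈ 𝓝ˢ (diagonal M), ∀ 𝒰 ∈ 𝓝ˢ (diagonal M), ∃ C : ℝ, ∀ x y : M,
    StableClose f 𝒰₀ x y → ∀ k : ℕ, ∃ N : ℕ, (N : ℝ) ≤ C * Real.exp (S * k) ∧
      StableChain f 𝒰 N (T k x) (T k y)

theorem ExpandsBy.upSeq {X : Type*} [MetricSpace X] [CompactSpace X] {f : X ≃ₜ X}
    {T : ℕ → X → X} {S : ℝ} (h : ExpandsBy f T S) {m : ℕ} (hm : 1 ≤ m) :
    ∃ δ₀ > 0, ∀ δ : ℝ, 0 < δ → δ ≤ δ₀ → UpSeq (iterHomeo f m) (fun k => T (m * k)) δ (S * m) := by
  obtain ⟨𝒰₀, h𝒰₀, h1⟩ := h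
  obtain ⟨δ₀, hδ₀, h2⟩ := close_of_SR f hm h𝒰₀
  refine ⟨δ₀, hδ₀, fun δ hδ hle ρ hρ => ?_⟩
  obtain ⟨C, h3⟩ := h1 {p | dist p.1 p.2 < ρ} (diag_mem.2 ⟨ρ, hρ, fun x y h => h⟩)
  refine ⟨max 1 C, le_max_left _ _, fun k x y hxy => ?_⟩
  obtain ⟨N, hN, z, z0, zN, hz⟩ := h3 x y (h2 _ _ (hxy.mono hle)) (m * k)
  refine ⟨N, Nat.le_floor ?_, z, z0, zN,
    fun i hi => SR_of_close f m (fun p hp => le_of_lt hp) (hz i hi)⟩
  have e : S * ((m * k : ℕ) : ℝ) = S * m * k := by push_cast; ring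
  rw [e] at hN
  exact hN.trans (mul_le_mul_of_nonneg_right (le_max_right _ _) (Real.exp_pos _).le)

section manifold

variable {E : Type u} [NormedAddCommGroup E] [NormedSpace ℝ E] [FiniteDimensional ℝ E]
  {M : Type v} [TopologicalSpace M] [T2Space M] [CompactSpace M] [ConnectedSpace M]
  [ChartedSpace E M] [IsManifold 𝓘(ℝ, E) ∞ M]

/-- The theorem for a sequence of homeomorphisms. -/
theorem cent_pinching (f : Diffeomorph 𝓘(ℝ, E) 𝓘(ℝ, E) M M 1)
    (Es Eu : ∀ x : M, Submodule ℝ (TangentSpace 𝓘(ℝ, E) x)) (hA : IsAnosov f Es Eu)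
    (φ : ℕ → M ≃ₜ M) (hφs : ∀ k x y, Asym f (φ k x) (φ k y) ↔ Asym f x y)
    (hφu : ∀ k x y, Asym f.symm (φ k x) (φ k y) ↔ Asym f.symm x y)
    (s S u U : ℝ) (hs : 0 < s) (hS : S < s) (hu : 0 < u) (hU : U < u)
    (h1 : CoarseContracts f s) (h2 : CoarseContracts f.symm u)
    (h3 : ExpandsBy f (fun k => φ k) S) (h4 : ExpandsBy f.symm (fun k x => f^[k] (φ k x)) U) :
    TopTransitive f ∧ Dense (Function.periodicPts f) ∧ GPS f.toHomeomorph ∧
      (∃ q : E → M, IsCoveringMap q ∧ Function.Surjective q) ∧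
      ∃ d : ℕ, ∀ (x : M) (S : Set (FundamentalGroup M x)), S.Finite →
        ∃ C : ℕ, ∀ n : ℕ, (S ^ n).ncard ≤ C * (n + 1) ^ d := by
  obtain ⟨m, e, he, hemb, hinj⟩ := exists_embedding_euclidean_of_compact (I := 𝓘(ℝ, E)) (M := M)
  let _ : MetricSpace M := hemb.isEmbedding.comapMetricSpace e
  have hiso : ∀ x y : M, dist x y = ‖e x - e y‖ := fun x y => dist_eq_norm (e x) (e y)
  have he1 : ContMDiff 𝓘(ℝ, E) (𝓡 m) 1 e := he.of_le (by simp)
  obtain ⟨C, r₁, r₂, Ls, Lu, hE⟩ := eanosov_of_isAnosov e he1 hinj f Es Eu hA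
  obtain ⟨n, Sy, hn1, hg, -, -, -, -, -⟩ := exists_sys hiso he1 hinj hE
    (a' := 1) (b' := 1) hE.a_lt hE.b_lt
  obtain ⟨c, hLP⟩ := exists_LP Sy
  have hc := hLP.c_pos
  have hn0 : (0 : ℝ) < n := by
    have : (1 : ℝ) ≤ n := by exact_mod_cast hn1
    linarith
  have hsym : (iterHomeo f.toHomeomorph n).symm = iterHomeo f.toHomeomorph.symm n := rfl
  obtain ⟨δ₁, hδ₁, R1⟩ := CoarseContracts.loRate (f := f.toHomeomorph) h1 hn1
  obtain ⟨δ₂, hδ₂, R2⟩ := CoarseContracts.loRate (f := f.toHomeomorph.symm) h2 hn1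
  obtain ⟨δ₃, hδ₃, R3⟩ := ExpandsBy.upSeq (f := f.toHomeomorph) h3 hn1
  obtain ⟨δ₄, hδ₄, R4⟩ := ExpandsBy.upSeq (f := f.toHomeomorph.symm) h4 hn1
  rw [← hsym] at R2 R4
  rw [← hg] at R1 R2 R3 R4
  set δ := min (min δ₁ δ₂) (min (min δ₃ δ₄) c) with hδ
  have d0 : 0 < δ := by positivity
  have d1 : δ ≤ δ₁ := (min_le_left _ _).trans (min_le_left _ _)
  have d2 : δ ≤ δ₂ := (min_le_left _ _).trans (min_le_right _ _)
  have d3 : δ ≤ δ₃ := (min_le_right _ _).trans ((min_le_left _ _).trans (min_le_left _ _))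
  have d4 : δ ≤ δ₄ := (min_le_right _ _).trans ((min_le_left _ _).trans (min_le_right _ _))
  have d5 : δ ≤ c := (min_le_right _ _).trans (min_le_right _ _)
  have hX : ULC M := ulc_of_charted (X := M) (E := E)
  have hΦ : ∀ k, Fol Sy.g (φ (n * k)) := fun k => ⟨fun x y => by
    rw [hg, Pool.Agent.TH289.WS_iter_iff _ hn1, Pool.Agent.TH289.WS_iter_iff _ hn1,
      ← Pool.Agent.TH289.asym_iff, ← Pool.Agent.TH289.asym_iff]
    exact hφs _ x y, fun x y => by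
    rw [hg, hsym, Pool.Agent.TH289.WS_iter_iff _ hn1, Pool.Agent.TH289.WS_iter_iff _ hn1,
      ← Pool.Agent.TH289.asym_iff, ← Pool.Agent.TH289.asym_iff]
    exact hφu _ x y⟩
  have hgi : ∀ x, Sy.g x = f^[n] x := fun x => by rw [hg]; rfl
  have R4' : UpSeq Sy.g.symm (fun k x => Sy.g^[k] (φ (n * k) x)) δ (U * n) := by
    have e : (fun (k : ℕ) (x : M) => Sy.g^[k] (φ (n * k) x)) =
        fun k => (fun (k : ℕ) (x : M) => f^[k] (φ k x)) (n * k) := by
      funext k x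
      show Sy.g^[k] (φ (n * k) x) = f^[n * k] (φ (n * k) x)
      rw [hg]
      exact iterHomeo_iter f.toHomeomorph n k _
    rw [e]
    exact R4 δ d0 d4
  obtain ⟨br, δb, ε₁, ρ, η, δm, A, K, hρ, hδm, hsq, HF⟩ := cent_frames (Φ := fun k => φ (n * k))
    hLP hX hΦ d0 d5 (s := s * n) (S := S * n) (u := u * n) (U := U * n) (mul_pos hs hn0)
    (mul_lt_mul_of_pos_right hS hn0) (mul_pos hu hn0) (mul_lt_mul_of_pos_right hU hn0)
    (R1 δ d0 d1) (R2 δ d0 d2) (R3 δ d0 d3) R4'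
  have hall : ∀ a s, WS Sy.g a s → Lf Sy.g a s :=
    lf_of_framesF hLP hX hρ fun N => (HF N).imp fun n hn => hn.2
  have : ProperSpace E := FiniteDimensional.proper_real E
  obtain ⟨a1, a2, q₀, hq₀⟩ := abs_main (E' := E) Qsx.main Sy hLP hall hn1 hg
  obtain ⟨c₁, hc₁, hsl⟩ := Pool.Agent.Y330.H.exists_sl hLP
  have hex := ex_of_lf hLP hc₁ hsl hall
  have hpg := growth_of_framesF hLP hX hex hρ hδm hsq A K HF
  refine ⟨conclude f hgi a1, fun x => ?_, a2, ⟨q₀, hq₀, covering_surj hq₀⟩, hpg⟩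
  rw [Metric.mem_closure_iff]
  intro ε hε
  obtain ⟨y, N, hN1, hy, hd⟩ := Pool.Agent.H779R2.An.periodic_dense Sy a1 x ε hε
  refine ⟨y, ⟨n * N, Nat.mul_pos hn1 hN1, ?_⟩, by rwa [dist_comm]⟩
  rw [Function.IsPeriodicPt, Function.IsFixedPt]
  have h3 : Sy.g^[N] = f^[n * N] := by
    rw [Function.iterate_mul]
    congr 1
    funext x
    exact hgi x
  rw [← h3]
  exact hy

end manifold

end Pool.Agent.T9h69.CG
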