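import Pool.Agent.T9h69.CF.Growth
import Pool.Agent.T9h69.CG.Fol

set_option autoImplicit false
set_option linter.unusedSectionVars false

/-! Corners of long words, with frames which preserve the stable and the unstable sets. -/

open Filter Topology Set Metric unitInterval
open scoped Pointwise

namespace Pool.Agent.T9h69.CG

open Pool.Agent.H789R2.AN Pool.Agent.H789R2.GP Pool.Agent.N234.CP Pool.Agent.Y330.J
open Pool.Agent.T9h69.CF

variable {X : Type*} [MetricSpace X] [CompactSpace X] {g : X ≃ₜ X} {c : ℝ}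

theorem small_pathF (hg : LP g c) (hX : ULC X) {ε : ℝ} (hε : 0 < ε) : ∃ η > 0, ∀ (ψ : X ≃ₜ X),
    Fol g ψ → ∀ (x y : X),
      SR g η (ψ x) (ψ y) → ∃ p : Path x y, LPath g p ∧ ∀ t, dist (ψ x) (ψ (p t)) ≤ ε := by
  obtain ⟨η, hη, h1⟩ := leaf_path hg hX ε hε
  refine ⟨η, hη, fun ψ hψ x y hxy => ?_⟩
  obtain ⟨υ, h2, h3, h4⟩ := h1 ⟨ψ x⟩ ⟨ψ y⟩ ((SM.dist_le _ _ hη.le).2 hxy)
  let v : C(I, SM g) := ⟨fun t => ⟨ψ.symm (υ t).val⟩,
    (Loc.continuous (hψ.symm'.loc hg hX)).comp υ.continuous⟩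
  have hv : ∀ t, (v t).val = ψ.symm (υ t).val := fun t => rfl
  let p : Path x y := ⟨⟨fun t => (v t).val, SM.val_continuous.comp v.continuous⟩, by
      show (v 0).val = x
      rw [hv, h2]
      exact ψ.symm_apply_apply x, by
      show (v 1).val = y
      rw [hv, h3]
      exact ψ.symm_apply_apply y⟩
  refine ⟨p, lpath_of_sm hg v p fun t => rfl, fun t => ?_⟩
  have e : ψ (p t) = (υ t).val := by
    show ψ (ψ.symm (υ t).val) = _
    exact ψ.apply_symm_apply _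
  rw [e]
  exact ((SM.dist_le _ _ hε.le).1 (h4 t)) 0

/-- The boundary of a square which is small in a frame. -/
theorem squareF (hg : LP g c) (hX : ULC X) : ∃ δ₀ > 0, ∀ (ψ : X ≃ₜ X),
    Fol g ψ → ∀ {a b d e : X}
    {α : Path.Homotopic.Quotient a b} {β : Path.Homotopic.Quotient b d}
    {β' : Path.Homotopic.Quotient a e} {α' : Path.Homotopic.Quotient e d},
    Scl g α → Scl g.symm β → Scl g.symm β' → Scl g α' →
    SR g δ₀ (ψ a) (ψ b) → SR g.symm δ₀ (ψ b) (ψ d) →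
    SR g.symm δ₀ (ψ a) (ψ e) → SR g δ₀ (ψ e) (ψ d) →
    α.trans β = β'.trans α' := by
  obtain ⟨δ, hδ, h1⟩ := hom_small' hX
  obtain ⟨η, hη, h2⟩ := small_pathF hg hX (ε := δ / 3) (by positivity)
  obtain ⟨η', hη', h3⟩ := small_pathF hg.symm hX (ε := δ / 3) (by positivity)
  refine ⟨min η η', lt_min hη hη', ?_⟩
  intro ψ hψ a b d e α β β' α' hα hβ hβ' hα' s1 s2 s3 s4
  have hψ' : Fol g.symm ψ := hψ.flip
  obtain ⟨p, p1, p2⟩ := h2 ψ hψ a b (s1.mono (min_le_left _ _))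
  obtain ⟨q, q1, q2⟩ := h3 ψ hψ' b d (s2.mono (min_le_right _ _))
  obtain ⟨q', q1', q2'⟩ := h3 ψ hψ' a e (s3.mono (min_le_right _ _))
  obtain ⟨p', p1', p2'⟩ := h2 ψ hψ e d (s4.mono (min_le_left _ _))
  rw [hα.unique hX ⟨p, p1, rfl⟩, hβ.unique hX ⟨q, q1, rfl⟩, hβ'.unique hX ⟨q', q1', rfl⟩,
    hα'.unique hX ⟨p', p1', rfl⟩, ← cl_trans, ← cl_trans]
  apply cl_eq
  refine h1 ψ _ _ (fun t => ?_) (fun t => ?_)
  · have := trans_dist (f := ψ) p2 q2 t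
    linarith
  · have := trans_dist (f := ψ) q2' p2' t
    linarith

theorem stepUF (hg : LP g c) (hX : ULC X) {br : X → X → X} {δb δ₁ ρ η δm : ℝ} {φ ψ : X ≃ₜ X}
    {θ : ℕ → X ≃ₜ X} {n J Lm : ℕ} (F : Frm g c br δb δ₁ ρ η δm φ ψ θ n J Lm)
    (sq : Sq g δ₁ ψ) (hψ : Fol g ψ) (wφ : ∀ x y, WS g (φ x) (φ y) → WS g x y)
    {j L : ℕ} (hj : j + 1 ≤ J) (hL : L ≤ Lm) {x z w : X}
    {γ : Path.Homotopic.Quotient x z} (h : St g φ ψ δ₁ ρ j L γ)
    {υ : Path.Homotopic.Quotient z w} (hυ : Scl g.symm υ)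
    (hzw : SR g.symm ρ (ψ z) (ψ w)) : St g φ ψ δ₁ ρ (j + 1) L (γ.trans υ) := by
  obtain ⟨y, p, b, b', α, β, h1, h2, h3, h4, h5, ⟨i₀, hi₀, h6⟩, h7⟩ := h
  have hc := hg.c_pos
  have hρ0 := F.hρ0
  have hδ1c := F.hδ₁
  have hρδ := F.hρδ
  have hρη := F.hρη
  have hη := F.hη
  have hψ' : Fol g.symm ψ := hψ.flip
  -- the points are close to `w`
  have hchain : ∀ i ≤ L, Steps g δ₁ (L - i) (φ (p i)) (φ z) := fun i hi =>
    ⟨fun t => φ (p (i + t)), by simp, by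
      show φ (p (i + (L - i))) = _
      rw [show i + (L - i) = L by omega, h2], fun t ht => by
      have := (h7 (i + t) (by omega)).1
      rwa [Nat.add_assoc] at this⟩
  have hd : ∀ i ≤ L, dist (ψ w) (ψ (p i)) < η := by
    intro i hi
    have a1 : dist (ψ (p i)) (ψ z) ≤ ρ :=
      F.CS (L - i) (by omega) _ _ (hchain i hi) 0
    have a2 : dist (ψ z) (ψ w) ≤ ρ := hzw 0
    have a3 := dist_triangle (ψ (p i)) (ψ z) (ψ w)
    rw [dist_comm]
    linarith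
  obtain ⟨q, q0, hu, hv, hs, hb1, hb2⟩ := slide F (b := b) (b' := b') (j := j) hj hd
    (fun l hl => (h7 l hl).1) (fun l hl => (h7 l hl).2.1) (fun l hl => (h7 l hl).2.2.1)
    (fun l hl => (h7 l hl).2.2.2)
  have hqL : q L = w := by
    have a1 : dist (ψ w) (ψ z) < δb := by
      have := hd L le_rfl
      rw [h2] at this
      linarith
    have a2 := F.hb.b3 (ψ w) (ψ z) (ψ w) a1 (qs_SR_refl _ (by linarith) _)
      (hzw.mono (by linarith))
    apply ψ.injective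
    rw [q0, h2, ← a2]
  -- asymptotic pairs
  have wu : ∀ i ≤ L, WS g.symm (p i) (q i) := fun i hi =>
    (hψ'.s _ _).1 (WS.of_SR (hg.cU _ _ ((hu i hi).mono (by linarith))))
  have wp : ∀ l < L, WS g (p l) (p (l + 1)) := fun l hl =>
    wφ _ _ (WS.of_SR (hg.cS _ _ ((h7 l hl).1.mono (by linarith))))
  have wq : ∀ l < L, WS g (q l) (q (l + 1)) := fun l hl =>
    wφ _ _ (WS.of_SR (hg.cS _ _ ((hs l hl).mono (by linarith))))
  have wpz : ∀ i ≤ L, WS g (p i) z := fun i hi =>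
    wφ _ _ ((hchain i hi).ws hg (by linarith))
  have wqw : ∀ i ≤ L, WS g (q i) w := fun i hi =>
    (hψ.s _ _).1 (WS.of_SR (hg.cS _ _ ((hv i hi).mono (by linarith)))).symm'
  -- the classes
  have base : ∀ z' w' : X, z' = z → w' = w → ∀ (s : Path.Homotopic.Quotient z' z)
      (u : Path.Homotopic.Quotient z' w') (s' : Path.Homotopic.Quotient w' w),
      Scl g s → Scl g.symm u → Scl g s' → s.trans υ = u.trans s' := by
    rintro z' w' rfl rfl s u s' a1 a2 a3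
    rw [a1.unique hX (Scl.refl g _), a3.unique hX (Scl.refl g _), a2.unique hX hυ,
      Path.Homotopic.Quotient.refl_trans, Path.Homotopic.Quotient.trans_refl]
  have main : ∀ d ≤ L, ∀ (s : Path.Homotopic.Quotient (p (L - d)) z)
      (u : Path.Homotopic.Quotient (p (L - d)) (q (L - d)))
      (s' : Path.Homotopic.Quotient (q (L - d)) w),
      Scl g s → Scl g.symm u → Scl g s' → s.trans υ = u.trans s' := by
    intro d
    induction d with
    | zero =>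
      intro _
      exact base _ _ (by simpa using h2) (by simpa using hqL)
    | succ d ih =>
      intro hd'
      obtain ⟨i, hi⟩ : ∃ i, i = L - (d + 1) := ⟨_, rfl⟩
      rw [← hi]
      intro s u s' a1 a2 a3
      have hi1 : L - d = i + 1 := by omega
      have hiL : i < L := by omega
      rw [hi1] at ih
      obtain ⟨t, ht⟩ := exists_scl hg hX (wp i hiL)
      obtain ⟨t', ht'⟩ := exists_scl hg hX (wq i hiL)
      obtain ⟨s1, hs1⟩ := exists_scl hg hX (wpz (i + 1) hiL)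
      obtain ⟨s1', hs1'⟩ := exists_scl hg hX (wqw (i + 1) hiL)
      obtain ⟨u1, hu1⟩ := exists_scl hg.symm hX (wu (i + 1) hiL)
      have b1 := ih (by omega) s1 u1 s1' hs1 hu1 hs1'
      have b2 : t.trans u1 = u.trans t' := sq ht hu1 a2 ht'
        (F.up (by omega) (h7 i hiL).1) (hu (i + 1) hiL) (hu i hiL.le) (F.up (by omega) (hs i hiL))
      rw [a1.unique hX (ht.trans hs1), a3.unique hX (ht'.trans hs1'),
        Path.Homotopic.Quotient.trans_assoc, b1, ← Path.Homotopic.Quotient.trans_assoc, b2,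
        Path.Homotopic.Quotient.trans_assoc]
  obtain ⟨u0, hu0⟩ := exists_scl hg.symm hX (wu 0 (Nat.zero_le _))
  obtain ⟨s0, hs0⟩ := exists_scl hg hX (wqw 0 (Nat.zero_le _))
  subst h1
  have h8 := main L le_rfl
  rw [Nat.sub_self] at h8
  have h9 := h8 β u0 s0 h4 hu0 hs0
  refine ⟨q 0, q, b, b', α.trans u0, s0, rfl, hqL, h3.trans hu0, hs0, ?_,
    ⟨i₀ + 1, by omega, h6.snoc (hu 0 (Nat.zero_le _))⟩, fun l hl =>
    ⟨hs l hl, (h7 l hl).2.1, hb1 l hl, hb2 l hl⟩⟩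
  rw [h5, Path.Homotopic.Quotient.trans_assoc, h9, ← Path.Homotopic.Quotient.trans_assoc]

/-- many unstable steps -/
theorem stepsUF (hg : LP g c) (hX : ULC X) {br : X → X → X} {δb δ₁ ρ η δm : ℝ} {φ ψ : X ≃ₜ X}
    {θ : ℕ → X ≃ₜ X} {n J Lm : ℕ} (F : Frm g c br δb δ₁ ρ η δm φ ψ θ n J Lm)
    (sq : Sq g δ₁ ψ) (hψ : Fol g ψ) (wφ : ∀ x y, WS g (φ x) (φ y) → WS g x y)
    {j L N : ℕ} (hj : j + N ≤ J) (hL : L ≤ Lm) {x z w : X}
    {γ : Path.Homotopic.Quotient x z} (h : St g φ ψ δ₁ ρ j L γ)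
    {υ : Path.Homotopic.Quotient z w} (hυ : Scl g.symm υ)
    (hzw : Steps g.symm ρ N (ψ z) (ψ w)) : St g φ ψ δ₁ ρ (j + N) L (γ.trans υ) := by
  obtain ⟨ζ, z0, zN, hz⟩ := hzw
  have hc := F.hδ₁
  have hρδ := F.hρδ
  have hρ0 := F.hρ0
  have hψ' : Fol g.symm ψ := hψ.flip
  have hd : ∀ i, ψ (ψ.symm (ζ i)) = ζ i := fun i => ψ.apply_symm_apply _
  have key : ∀ i ≤ N, ∀ υ' : Path.Homotopic.Quotient z (ψ.symm (ζ i)), Scl g.symm υ' →
      St g φ ψ δ₁ ρ (j + i) L (γ.trans υ') := by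
    intro i
    induction i with
    | zero =>
      intro _
      have e : ψ.symm (ζ 0) = z := by rw [z0, ψ.symm_apply_apply]
      rw [e]
      intro υ' hυ'
      rw [hυ'.unique hX (Scl.refl g.symm z), Path.Homotopic.Quotient.trans_refl]
      exact h
    | succ i ih =>
      intro hi υ' hυ'
      have w1 : WS g.symm (ψ.symm (ζ i)) (ψ.symm (ζ (i + 1))) := by
        apply (hψ'.s _ _).1
        rw [hd, hd]
        exact WS.of_SR (hg.cU _ _ ((hz i (by omega)).mono (by linarith)))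
      have w2 : ∀ i ≤ N, WS g.symm z (ψ.symm (ζ i)) := by
        intro i hi
        apply (hψ'.s _ _).1
        rw [hd, ← z0]
        exact (Steps.of_chain hz hi).ws hg.symm (by linarith)
      obtain ⟨s, hs⟩ := exists_scl hg.symm hX w1
      obtain ⟨s', hs'⟩ := exists_scl hg.symm hX (w2 i (by omega))
      rw [hυ'.unique hX (hs'.trans hs), ← Path.Homotopic.Quotient.trans_assoc, ← Nat.add_assoc]
      refine stepUF hg hX F sq hψ wφ (by omega) hL (ih (by omega) s' hs') hs ?_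
      rw [hd, hd]
      exact hz i (by omega)
  have h1 := key N le_rfl
  have e : ψ.symm (ζ N) = w := by rw [zN, ψ.symm_apply_apply]
  rw [e] at h1
  exact h1 υ hυ

/-- frames for `N` steps -/
def HFrF (g : X ≃ₜ X) (c : ℝ) (br : X → X → X) (δb δ₁ ρ η δm : ℝ) (N n : ℕ) : Prop :=
  ∃ (φ ψ : X ≃ₜ X) (θ : ℕ → X ≃ₜ X) (J₁ L₁ : ℕ),
    Frm g c br δb δ₁ ρ η δm φ ψ θ n (N * J₁) (N * L₁) ∧
    (∀ x y, SR g ρ x y → ∃ M ≤ L₁, Steps g ρ M (φ x) (φ y)) ∧
    (∀ x y, SR g.symm ρ x y → ∃ M ≤ J₁, Steps g.symm ρ M (ψ x) (ψ y)) ∧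
    Loc g.symm φ ∧ Loc g.symm φ.symm ∧ UA g φ δ₁ ∧ Fol g ψ ∧
    (∀ x y, WS g (φ x) (φ y) → WS g x y)

theorem lf_of_framesF {g : X ≃ₜ X} {c : ℝ} (h : LP g c) (hX : ULC X)
    {br : X → X → X} {δb δ₁ ρ η δm : ℝ} (hρ : 0 < ρ)
    (HF : ∀ N : ℕ, ∃ n : ℕ, HFrF g c br δb δ₁ ρ η δm N n) : ∀ a s, WS g a s → Lf g a s := by
  intro a s has υ hυ
  obtain ⟨v, v0, v1⟩ := leaf_conn h hX a s has
  obtain ⟨N₁, hN₁⟩ := steps_path v hρ
  obtain ⟨N₂, hN₂⟩ := steps_path υ hρ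
  obtain ⟨n, φ, ψ, θ, J₁, L₁, F, U1, U2, hU, hU', ua, -, -⟩ := HF (N₁ + N₂)
  have hS : Steps g ρ N₁ a s := by
    have := hN₁ 1
    rwa [v0, v1] at this
  obtain ⟨L, hL, z', z0, zL, hz⟩ := Steps.lift (φ := φ) U1 hS
  have hLm : L ≤ (N₁ + N₂) * L₁ := hL.trans (Nat.mul_le_mul_right _ (by omega))
  have hphi : ∀ y, φ (φ.symm y) = y := φ.apply_symm_apply
  have hpsi : ∀ y, ψ (ψ.symm y) = y := ψ.apply_symm_apply
  set z : ℕ → X := fun i => φ.symm (z' i) with hzdef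
  have e0 : z 0 = a := by
    show φ.symm (z' 0) = a
    rw [z0, φ.symm_apply_apply]
  have eL : z L = s := by
    show φ.symm (z' L) = s
    rw [zL, φ.symm_apply_apply]
  have hz1 : ∀ i < L, SR g ρ (φ (z i)) (φ (z (i + 1))) := fun i hi => by
    show SR g ρ (φ (φ.symm (z' i))) (φ (φ.symm (z' (i + 1))))
    rw [hphi, hphi]
    exact hz i hi
  obtain ⟨x, hx⟩ := bottom_lift' h F hU hU' ua L z υ (by rw [hυ, e0]) hz1 (fun t => by
    have hT := hN₂ t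
    rw [hυ] at hT
    obtain ⟨J, hJ, w', w0, wJ, hw⟩ := Steps.lift (φ := ψ) U2 hT
    have hJm : J ≤ (N₁ + N₂) * J₁ := hJ.trans (Nat.mul_le_mul_right _ (by omega))
    obtain ⟨p, p0, p1, p2⟩ := ladder' F hLm hJm z (fun i => ψ.symm (w' i)) hz1 (fun j hj => by
        rw [hpsi, hpsi]
        exact hw j hj) (by
        show ψ.symm (w' 0) = z 0
        rw [w0, ψ.symm_apply_apply, e0]) J le_rfl
    refine ⟨p, ?_, p1, fun i hi => F.CU J hJm _ _ (p2 i hi)⟩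
    rw [p0]
    show ψ.symm (w' J) = _
    rw [wJ, ψ.symm_apply_apply])
  rw [eL] at hx
  exact ⟨x, hx⟩

/-- products of generators -/
theorem powF (hg : LP g c) (hX : ULC X) {br : X → X → X} {δb δ₁ ρ η δm : ℝ} {φ ψ : X ≃ₜ X}
    {θ : ℕ → X ≃ₜ X} {n N N₀ J₁ L₁ : ℕ}
    (F : Frm g c br δb δ₁ ρ η δm φ ψ θ n (N * N₀ * J₁) (N * N₀ * L₁))
    (sq : Sq g δ₁ ψ) (hψ : Fol g ψ) (wφ : ∀ x y, WS g (φ x) (φ y) → WS g x y)
    {x : X} {S : Set (FundamentalGroup X x)} (hS : ∀ α ∈ S, GenS g ρ N₀ (x := x) α)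
    (U1 : ∀ x y, SR g ρ x y → ∃ M ≤ L₁, Steps g ρ M (φ x) (φ y))
    (U2 : ∀ x y, SR g.symm ρ x y → ∃ M ≤ J₁, Steps g.symm ρ M (ψ x) (ψ y)) :
    ∀ i ≤ N, ∀ α ∈ S ^ i, ∃ L ≤ i * (N₀ * L₁),
      St g φ ψ δ₁ ρ (i * (N₀ * J₁)) L (x := x) (z := x) α := by
  intro i
  induction i with
  | zero =>
    intro _ α hα
    rw [pow_zero, Set.mem_one] at hα
    rw [hα, FundamentalGroup.one_def]
    exact ⟨0, Nat.zero_le _, (St.init g φ ψ δ₁ ρ x).mono (Nat.zero_le _)⟩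
  | succ i ih =>
    intro hi α hα
    rw [pow_succ'] at hα
    obtain ⟨γ, hγ, β, hβ, rfl⟩ := Set.mem_mul.1 hα
    rw [FundamentalGroup.mul_def]
    obtain ⟨L, hL, h1⟩ := ih (by omega) β hβ
    obtain ⟨y, p, q, hp, hq, he, s1, s2⟩ := hS γ hγ
    obtain ⟨M, hM, t1⟩ := Steps.lift_le U2 s1
    obtain ⟨M', hM', t2⟩ := Steps.lift_le U1 s2
    have hn1 : (i + 1) * (N₀ * J₁) ≤ N * N₀ * J₁ := by
      rw [Nat.mul_assoc]; exact Nat.mul_le_mul_right _ hi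
    have hn2 : (i + 1) * (N₀ * L₁) ≤ N * N₀ * L₁ := by
      rw [Nat.mul_assoc]; exact Nat.mul_le_mul_right _ hi
    have a1 : (i + 1) * (N₀ * J₁) = i * (N₀ * J₁) + N₀ * J₁ := by ring
    have a2 : (i + 1) * (N₀ * L₁) = i * (N₀ * L₁) + N₀ * L₁ := by ring
    have h2 := stepsUF hg hX F sq hψ wφ (N := M) (by omega) (by omega) h1 hp t1
    have h3 := h2.stepsS hg hX F.hρδ (by linarith [F.hδ₁, F.hρ0, F.hρδ]) wφ hq t2
    refine ⟨L + M', by omega, ?_⟩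
    have h4 : (β : Path.Homotopic.Quotient x x).trans γ = (β.trans p).trans q := by
      rw [Path.Homotopic.Quotient.trans_assoc, ← he]
    rw [h4]
    exact h3.mono (by omega)

/-- **Polynomial growth** of the fundamental group. -/
theorem growth_of_framesF (hg : LP g c) (hX : ULC X) (hex : Ex g) {br : X → X → X}
    {δb δ₁ ρ η δm : ℝ} (hρ : 0 < ρ) (hδm : 0 < δm)
    (hsq : ∀ ψ : X ≃ₜ X, Fol g ψ → Sq g δ₁ ψ) (A K : ℕ)
    (HF : ∀ N : ℕ, ∃ n ≤ A + K * Nat.log 2 (N + 1), HFrF g c br δb δ₁ ρ η δm N n) :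
    ∃ d : ℕ, ∀ (x : X) (S : Set (FundamentalGroup X x)), S.Finite →
      ∃ C : ℕ, ∀ n : ℕ, (S ^ n).ncard ≤ C * (n + 1) ^ d := by
  classical
  have hc := hg.c_pos
  obtain ⟨Q, col, hcol⟩ := exists_col X (η := 3 * δm) (by positivity)
  refine ⟨Q * K, fun x S hS => ?_⟩
  obtain ⟨N₀, hN₀⟩ := GenS.finite (c := c) hg hX hex hρ hS
  refine ⟨(2 ^ Q) ^ (A + 1 + K * (Nat.log 2 (N₀ + 1) + 1)), fun N => ?_⟩
  obtain ⟨n, hn, φ, ψ, θ, J₁, L₁, F, U1, U2, -, -, -, hψ, wφ⟩ := HF (N * N₀)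
  have hne : Nonempty X := ⟨x⟩
  have hδ1c := F.hδ₁
  have hρδ := F.hρδ
  have hpow := powF hg hX F (hsq ψ hψ) hψ wφ hN₀ U1 U2 N le_rfl
  have hC' : ∀ α ∈ S ^ N, ∃ y : X, ∃ (p : Path.Homotopic.Quotient x y)
      (q : Path.Homotopic.Quotient y x), Scl g.symm p ∧ Scl g q ∧ α = p.trans q ∧
      SR g.symm ρ (φ x) (φ y) ∧ SR g ρ (ψ y) (ψ x) := by
    intro α hα
    obtain ⟨L, hL, y, p, b, b', α', β', h5, h6, h7, h8, h9, ⟨i, hi, h10⟩, h11⟩ := hpow α hα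
    subst h5
    refine ⟨p 0, α', β', h7, h8, h9, F.CU i (by rw [Nat.mul_assoc]; exact hi) _ _ h10, ?_⟩
    apply F.CS L (by rw [Nat.mul_assoc]; exact hL)
    rw [← h6]
    exact ⟨fun t => φ (p t), rfl, rfl, fun t ht => (h11 t ht).1⟩
  choose! y hy using hC'
  have hinj : Set.InjOn (fun α => fun m : Fin (n + 1) => col (θ (m : ℕ) (y α))) (S ^ N) := by
    intro α hα β hβ hab
    obtain ⟨p, r, p1, r1, e1, u1, s1⟩ := hy α hα
    obtain ⟨p', r', p2, r2, e2, u2, s2⟩ := hy β hβ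
    have h1 : y α = y β := by
      apply φ.injective
      refine expansive hg ?_ ?_
      · apply F.down
        · exact (qs_SR_add s1 s2.symm').mono (by linarith)
        · intro i hi
          exact hcol _ _ (congrFun hab ⟨i, by omega⟩)
      · exact (qs_SR_add u1.symm' u2).mono (by linarith [F.hρ0])
    rw [e1, e2]
    clear e1 e2 hab hα hβ
    generalize y β = yb at *
    subst h1
    rw [p1.unique hX p2, r1.unique hX r2]
  have hcard : (S ^ N).ncard ≤ (Q + 1) ^ (n + 1) := by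
    have h1 := Set.ncard_le_ncard_of_injOn _ (t := (Set.univ : Set (Fin (n + 1) → Fin (Q + 1))))
      (fun α _ => mem_univ _) hinj
    rwa [Set.ncard_univ, Nat.card_eq_fintype_card, Fintype.card_fun, Fintype.card_fin,
      Fintype.card_fin] at h1
  have hQ2 : (Q + 1) ^ (n + 1) ≤ (2 ^ Q) ^ (n + 1) :=
    Nat.pow_le_pow_left Nat.lt_two_pow_self _
  have hn2 : n + 1 ≤ (A + 1 + K * (Nat.log 2 (N₀ + 1) + 1)) + K * Nat.log 2 (N + 1) := by
    have a1 : Nat.log 2 (N * N₀ + 1) ≤ Nat.log 2 ((N + 1) * (N₀ + 1)) :=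
      Nat.log_mono_right (by nlinarith)
    have a2 := log_mul_le (N + 1) (N₀ + 1)
    have a3 : K * Nat.log 2 (N * N₀ + 1) ≤
        K * (Nat.log 2 (N + 1) + Nat.log 2 (N₀ + 1) + 1) := Nat.mul_le_mul_left _ (by omega)
    have a4 : K * (Nat.log 2 (N + 1) + Nat.log 2 (N₀ + 1) + 1) =
        K * (Nat.log 2 (N₀ + 1) + 1) + K * Nat.log 2 (N + 1) := by ring
    omega
  have h3 : (2 ^ Q) ^ (n + 1) ≤ (2 ^ Q) ^ ((A + 1 + K * (Nat.log 2 (N₀ + 1) + 1)) +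
      K * Nat.log 2 (N + 1)) :=
    Nat.pow_le_pow_right (by positivity) hn2
  have h4 : (2 ^ Q) ^ (K * Nat.log 2 (N + 1)) ≤ (N + 1) ^ (Q * K) := by
    calc (2 ^ Q) ^ (K * Nat.log 2 (N + 1)) = (2 ^ Nat.log 2 (N + 1)) ^ (Q * K) := by
          rw [← pow_mul, ← pow_mul]
          congr 1
          ring
      _ ≤ _ := Nat.pow_le_pow_left (Nat.pow_log_le_self 2 (by omega)) _
  refine hcard.trans (hQ2.trans (h3.trans ?_))
  rw [pow_add]
  exact Nat.mul_le_mul_left _ h4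

end Pool.Agent.T9h69.CG
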